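import Mathlib

/-!
Infinite words, runs of deterministic parity automata and profiles of finite words.
-/

namespace Pool.Agent.Lib_MP_369bda_lc

open Filter

/-- Prepend a letter to an infinite word. -/
def cons {α : Type*} (a : α) (w : ℕ → α) : ℕ → α
  | 0 => a
  | n + 1 => w n

/-- Prepend a finite word to an infinite word. -/
def app {α : Type*} : List α → (ℕ → α) → ℕ → α
  | [], w => w
  | a :: u, w => cons a (app u w)

/-- The state reached after reading the first `n` letters of `w` from state `q`. -/
def run {α Q : Type*} (δ : Q → α → Q) (q : Q) (w : ℕ → α) : ℕ → Q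
  | 0 => q
  | n + 1 => δ (run δ q w n) (w n)

/-- Max-parity condition: the largest number occurring infinitely often is even. -/
def PAcc (a : ℕ → ℕ) : Prop :=
  ∃ π, Even π ∧ (∃ᶠ n in atTop, a n = π) ∧ (∀ᶠ n in atTop, a n ≤ π)

/-- `w` is accepted from state `q`. -/
def Acc {α Q : Type*} (δ : Q → α → Q) (pr : Q → α → ℕ) (q : Q) (w : ℕ → α) : Prop :=
  PAcc fun n => pr (run δ q w n) (w n)

section basic

variable {α Q : Type*}

@[simp] lemma cons_zero (a : α) (w : ℕ → α) : cons a w 0 = a := rfl
@[simp] lemma cons_succ (a : α) (w : ℕ → α) (n : ℕ) : cons a w (n + 1) = w n := rfl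
@[simp] lemma app_nil (w : ℕ → α) : app [] w = w := rfl
@[simp] lemma app_cons (a : α) (u : List α) (w : ℕ → α) : app (a :: u) w = cons a (app u w) := rfl

lemma app_append (u v : List α) (w : ℕ → α) : app (u ++ v) w = app u (app v w) := by
  induction u with
  | nil => rfl
  | cons a u ih => simp [ih]

lemma app_add (u : List α) (w : ℕ → α) (n : ℕ) : app u w (u.length + n) = w n := by
  induction u with
  | nil => simp
  | cons a u ih =>
    rw [List.length_cons, Nat.add_right_comm, app_cons, cons_succ, ih]

lemma app_lt (u : List α) (w w' : ℕ → α) {n : ℕ} (hn : n < u.length) : app u w n = app u w' n := by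
  induction u generalizing n with
  | nil => simp at hn
  | cons a u ih =>
    cases n with
    | zero => rfl
    | succ n =>
      rw [app_cons, app_cons, cons_succ, cons_succ]
      exact ih (by simpa using hn)

lemma app_inj {u : List α} {w w' : ℕ → α} (h : app u w = app u w') : w = w' := by
  funext n
  rw [← app_add u w n, ← app_add u w' n, h]

/-- Uniqueness of `u^ω`. -/
lemma pow_unique {u : List α} (hu : u ≠ []) {w w' : ℕ → α} (h : w = app u w)
    (h' : w' = app u w') : w = w' := by
  have hl : 0 < u.length := List.length_pos_iff.2 hu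
  funext n
  induction n using Nat.strong_induction_on with
  | _ n ih =>
    rcases lt_or_ge n u.length with hn | hn
    · rw [h, h']; exact app_lt u w w' hn
    · obtain ⟨m, rfl⟩ := Nat.exists_eq_add_of_le hn
      rw [h, h', app_add, app_add]
      exact ih m (by omega)

/-- Existence of `u^ω`. -/
lemma pow_exists {u : List α} (hu : u ≠ []) : ∃ w : ℕ → α, w = app u w := by
  have hl : 0 < u.length := List.length_pos_iff.2 hu
  refine ⟨fun n => u[n % u.length]'(Nat.mod_lt _ hl), ?_⟩
  have key : ∀ (v : List α) (w : ℕ → α) (n : ℕ) (hn : n < v.length), app v w n = v[n] := by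
    intro v
    induction v with
    | nil => intro w n hn; simp at hn
    | cons a v ih =>
      intro w n hn
      cases n with
      | zero => rfl
      | succ n =>
        rw [app_cons, cons_succ, ih w n (by simpa using hn)]
        rfl
  funext n
  rcases lt_or_ge n u.length with hn | hn
  · rw [key u _ n hn]
    simp only [Nat.mod_eq_of_lt hn]
  · obtain ⟨m, rfl⟩ := Nat.exists_eq_add_of_le hn
    rw [app_add]
    simp only [Nat.add_mod_left]

lemma pow_append {u v : List α} {w : ℕ → α} (h : w = app (u ++ v) w) :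
    app v w = app (v ++ u) (app v w) := by
  rw [app_append, ← app_append u v w, ← h]

lemma pacc_succ (a : ℕ → ℕ) : PAcc (fun n => a (n + 1)) ↔ PAcc a := by
  unfold PAcc
  constructor
  · rintro ⟨π, h1, h2, h3⟩
    refine ⟨π, h1, ?_, ?_⟩
    · rw [frequently_atTop] at h2 ⊢
      intro N
      obtain ⟨b, hb, hb'⟩ := h2 N
      exact ⟨b + 1, by omega, hb'⟩
    · rw [eventually_atTop] at h3 ⊢
      obtain ⟨N, hN⟩ := h3
      refine ⟨N + 1, fun b hb => ?_⟩
      obtain ⟨c, rfl⟩ : ∃ c, b = c + 1 := ⟨b - 1, by omega⟩
      exact hN c (by omega)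
  · rintro ⟨π, h1, h2, h3⟩
    refine ⟨π, h1, ?_, ?_⟩
    · rw [frequently_atTop] at h2 ⊢
      intro N
      obtain ⟨b, hb, hb'⟩ := h2 (N + 1)
      obtain ⟨c, rfl⟩ : ∃ c, b = c + 1 := ⟨b - 1, by omega⟩
      exact ⟨c, by omega, hb'⟩
    · rw [eventually_atTop] at h3 ⊢
      obtain ⟨N, hN⟩ := h3
      exact ⟨N, fun b hb => hN (b + 1) (by omega)⟩

variable (δ : Q → α → Q) (pr : Q → α → ℕ)

lemma run_cons (q : Q) (a : α) (w : ℕ → α) (n : ℕ) :
    run δ q (cons a w) (n + 1) = run δ (δ q a) w n := by
  induction n with
  | zero => rfl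
  | succ n ih => rw [run, ih]; rfl

lemma acc_cons (q : Q) (a : α) (w : ℕ → α) : Acc δ pr q (cons a w) ↔ Acc δ pr (δ q a) w := by
  unfold Acc
  rw [← pacc_succ]
  simp only [run_cons, cons_succ]

lemma acc_app (q : Q) (u : List α) (w : ℕ → α) :
    Acc δ pr q (app u w) ↔ Acc δ pr (u.foldl δ q) w := by
  induction u generalizing q with
  | nil => rfl
  | cons a u ih => rw [app_cons, acc_cons, ih]; rfl

/-- The segment of length `k` of `w` starting at position `i`. -/
def seg (w : ℕ → α) (i k : ℕ) : List α := (List.range k).map fun j => w (i + j)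

@[simp] lemma seg_zero (w : ℕ → α) (i : ℕ) : seg w i 0 = [] := rfl

lemma seg_succ (w : ℕ → α) (i k : ℕ) : seg w i (k + 1) = seg w i k ++ [w (i + k)] := by
  simp [seg, List.range_succ]

@[simp] lemma seg_length (w : ℕ → α) (i k : ℕ) : (seg w i k).length = k := by simp [seg]

lemma run_seg (q : Q) (w : ℕ → α) (i k : ℕ) :
    run δ q w (i + k) = (seg w i k).foldl δ (run δ q w i) := by
  induction k with
  | zero => rfl
  | succ k ih => rw [seg_succ, List.foldl_append, ← ih]; rfl

lemma run_eq_seg (q : Q) (w : ℕ → α) (k : ℕ) : run δ q w k = (seg w 0 k).foldl δ q := by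
  have := run_seg δ q w 0 k
  rwa [Nat.zero_add] at this

/-- The word shifted by `i`. -/
lemma app_seg (w : ℕ → α) (k : ℕ) : app (seg w 0 k) (fun n => w (k + n)) = w := by
  induction k with
  | zero => simp
  | succ k ih =>
    rw [seg_succ, app_append, Nat.zero_add]
    conv_rhs => rw [← ih]
    congr 1
    funext n
    cases n with
    | zero => simp
    | succ n => simp only [app_cons, app_nil, cons_succ]; congr 1; omega

end basic

/-! ### Profiles -/

/-- Profiles: what a finite word does to every state, together with the (shifted by one)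
maximal priority seen, `0` meaning that no letter was read. -/
def Prof (Q : Type*) (d : ℕ) := Q → Q × Fin (d + 1)

instance {Q : Type*} {d : ℕ} [Finite Q] : Finite (Prof Q d) :=
  inferInstanceAs (Finite (Q → Q × Fin (d + 1)))

instance {Q : Type*} {d : ℕ} : Monoid (Prof Q d) where
  mul f g := fun q => ((g (f q).1).1, max (f q).2 (g (f q).1).2)
  one := fun q => (q, 0)
  mul_assoc f g h := by
    funext q
    change (_, max (max _ _) _) = (_, max _ (max _ _))
    rw [max_assoc]
    rfl
  one_mul f := by
    funext q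
    change ((f q).1, max 0 (f q).2) = f q
    rw [max_eq_right (Fin.zero_le _)]
  mul_one f := by
    funext q
    change ((f q).1, max (f q).2 0) = f q
    rw [max_eq_left (Fin.zero_le _)]

section prof

variable {α Q : Type*} {d : ℕ} (δ : Q → α → Q) (pr : Q → α → ℕ) (hd : ∀ q a, pr q a < d)

lemma Prof.mul_apply (f g : Prof Q d) (q : Q) :
    (f * g) q = ((g (f q).1).1, max (f q).2 (g (f q).1).2) := rfl

lemma Prof.one_apply (q : Q) : (1 : Prof Q d) q = (q, 0) := rfl

/-- The profile of a letter. -/
def letterProf (a : α) : Prof Q d := fun q => (δ q a, ⟨pr q a + 1, by have := hd q a; omega⟩)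

/-- The profile of a finite word. -/
def prof (u : List α) : Prof Q d := (u.map (letterProf δ pr hd)).prod

lemma prof_nil : prof δ pr hd [] = 1 := rfl

lemma prof_append (u v : List α) : prof δ pr hd (u ++ v) = prof δ pr hd u * prof δ pr hd v := by
  simp [prof]

lemma prof_single (a : α) : prof δ pr hd [a] = letterProf δ pr hd a := by simp [prof]

lemma prof_flatten (l : List (List α)) :
    prof δ pr hd l.flatten = (l.map (prof δ pr hd)).prod := by
  induction l with
  | nil => rfl
  | cons u l ih => rw [List.flatten_cons, prof_append, ih, List.map_cons, List.prod_cons]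

lemma prof_snoc (u : List α) (a : α) (q : Q) :
    prof δ pr hd (u ++ [a]) q = (δ (prof δ pr hd u q).1 a,
      max (prof δ pr hd u q).2 ⟨pr (prof δ pr hd u q).1 a + 1, by
        have := hd (prof δ pr hd u q).1 a; omega⟩) := by
  rw [prof_append, prof_single]; rfl

lemma prof_fst (u : List α) (q : Q) : (prof δ pr hd u q).1 = u.foldl δ q := by
  induction u using List.reverseRecOn with
  | nil => rfl
  | append_singleton u a ih => rw [prof_snoc, List.foldl_append]; simp [ih]

lemma prof_snd_pos {u : List α} (hu : u ≠ []) (q : Q) : 0 < ((prof δ pr hd u q).2 : ℕ) := by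
  induction u using List.reverseRecOn with
  | nil => exact absurd rfl hu
  | append_singleton u a _ =>
    rw [prof_snoc]
    have h1 : (⟨pr (prof δ pr hd u q).1 a + 1, by
        have := hd (prof δ pr hd u q).1 a; omega⟩ : Fin (d + 1)) ≤
        max (prof δ pr hd u q).2 ⟨pr (prof δ pr hd u q).1 a + 1, by
        have := hd (prof δ pr hd u q).1 a; omega⟩ := le_max_right _ _
    exact lt_of_lt_of_le (Nat.succ_pos _) (Fin.le_def.1 h1)

lemma prof_ne_one [Nonempty Q] {u : List α} (hu : u ≠ []) : prof δ pr hd u ≠ 1 := by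
  intro h
  obtain ⟨q⟩ := ‹Nonempty Q›
  have := prof_snd_pos δ pr hd hu q
  rw [h] at this
  simp [Prof.one_apply] at this

lemma prof_seg_le (q : Q) (w : ℕ → α) (i k : ℕ) : ∀ j < k,
    pr (run δ q w (i + j)) (w (i + j)) + 1 ≤
      ((prof δ pr hd (seg w i k) (run δ q w i)).2 : ℕ) := by
  induction k with
  | zero => intro j hj; omega
  | succ k ih =>
    intro j hj
    rw [seg_succ, prof_snoc]
    rcases Nat.lt_succ_iff_lt_or_eq.1 hj with hj | rfl
    · exact (ih j hj).trans (Fin.le_def.1 (le_max_left _ _))
    · have h1 : (prof δ pr hd (seg w i j) (run δ q w i)).1 = run δ q w (i + j) := by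
        rw [prof_fst, run_seg]
      refine le_trans ?_ (Fin.le_def.1 (le_max_right _ _))
      simp only [h1]
      exact le_refl _

lemma prof_seg_eq (q : Q) (w : ℕ → α) (i k : ℕ) (hk : 0 < k) : ∃ j < k,
    pr (run δ q w (i + j)) (w (i + j)) + 1 =
      ((prof δ pr hd (seg w i k) (run δ q w i)).2 : ℕ) := by
  induction k with
  | zero => omega
  | succ k ih =>
    rw [seg_succ, prof_snoc]
    have h1 : (prof δ pr hd (seg w i k) (run δ q w i)).1 = run δ q w (i + k) := by
      rw [prof_fst, run_seg]
    simp only [h1]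
    rcases le_total (prof δ pr hd (seg w i k) (run δ q w i)).2
      (⟨pr (run δ q w (i + k)) (w (i + k)) + 1, by
        have := hd (run δ q w (i + k)) (w (i + k)); omega⟩ : Fin (d + 1)) with h | h
    · rw [max_eq_right h]
      exact ⟨k, by omega, rfl⟩
    · rw [max_eq_left h]
      rcases Nat.eq_zero_or_pos k with rfl | hk'
      · exfalso
        have := Fin.le_def.1 h
        rw [seg_zero, prof_nil] at this
        simp [Prof.one_apply] at this
      · obtain ⟨j, hj, he⟩ := ih hk'
        exact ⟨j, by omega, he⟩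

/-- Block characterisation of the parity condition. -/
lemma pacc_block (a p : ℕ → ℕ) (l : ℕ) (hl : 0 < l)
    (h1 : ∀ k, ∀ j < l, a (k * l + j) + 1 ≤ p k) (h2 : ∀ k, ∃ j < l, a (k * l + j) + 1 = p k) :
    PAcc a ↔ ∃ π, Even π ∧ (∃ᶠ k in atTop, p k = π + 1) ∧ (∀ᶠ k in atTop, p k ≤ π + 1) := by
  have hdm : ∀ n, n / l * l + n % l = n := fun n => by rw [mul_comm]; exact Nat.div_add_mod n l
  constructor
  · rintro ⟨π, hπ, hf, he⟩
    refine ⟨π, hπ, ?_, ?_⟩
    · rw [frequently_atTop] at hf ⊢
      rw [eventually_atTop] at he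
      obtain ⟨N, hN⟩ := he
      intro K
      obtain ⟨n, hn, hn'⟩ := hf ((max N K + 1) * l)
      refine ⟨n / l, ?_, ?_⟩
      · have : max N K + 1 ≤ n / l := (Nat.le_div_iff_mul_le hl).2 hn
        have := le_max_right N K
        omega
      · have hle : π + 1 ≤ p (n / l) := by
          have := h1 (n / l) (n % l) (Nat.mod_lt _ hl)
          rw [hdm, hn'] at this
          exact this
        obtain ⟨j, hj, hj'⟩ := h2 (n / l)
        have hge : N ≤ n / l * l + j := by
          have e1 : max N K + 1 ≤ n / l := (Nat.le_div_iff_mul_le hl).2 hn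
          have e2 := le_max_left N K
          have e3 : n / l ≤ n / l * l := Nat.le_mul_of_pos_right _ hl
          omega
        have := hN _ hge
        omega
    · rw [eventually_atTop] at he ⊢
      obtain ⟨N, hN⟩ := he
      refine ⟨N, fun k hk => ?_⟩
      obtain ⟨j, hj, hj'⟩ := h2 k
      have e3 : k ≤ k * l := Nat.le_mul_of_pos_right _ hl
      have := hN (k * l + j) (by omega)
      omega
  · rintro ⟨π, hπ, hf, he⟩
    refine ⟨π, hπ, ?_, ?_⟩
    · rw [frequently_atTop] at hf ⊢
      intro K
      obtain ⟨k, hk, hk'⟩ := hf K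
      obtain ⟨j, hj, hj'⟩ := h2 k
      have e3 : k ≤ k * l := Nat.le_mul_of_pos_right _ hl
      exact ⟨k * l + j, by omega, by omega⟩
    · rw [eventually_atTop] at he ⊢
      obtain ⟨N, hN⟩ := he
      refine ⟨N * l, fun n hn => ?_⟩
      have e1 : N ≤ n / l := (Nat.le_div_iff_mul_le hl).2 hn
      have e2 := hN _ e1
      have e3 := h1 (n / l) (n % l) (Nat.mod_lt _ hl)
      rw [hdm] at e3
      omega

lemma seg_of_pow {u : List α} {w : ℕ → α} (h : w = app u w) (k : ℕ) :
    seg w (k * u.length) u.length = u := by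
  have hper : ∀ k n, w (k * u.length + n) = w n := by
    intro k
    induction k with
    | zero => intro n; simp
    | succ k ih =>
      intro n
      have : (k + 1) * u.length + n = u.length + (k * u.length + n) := by ring
      rw [this]
      conv_lhs => rw [h]
      rw [app_add, ih]
  have key : ∀ (v : List α) (w' : ℕ → α), seg (app v w') 0 v.length = v := by
    intro v
    induction v using List.reverseRecOn with
    | nil => intro w'; rfl
    | append_singleton v a ih =>
      intro w'
      rw [List.length_append, List.length_singleton, seg_succ, app_append, ih, Nat.zero_add]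
      congr 2
      have := app_add v (app [a] w') 0
      rw [Nat.add_zero] at this
      rw [this]; rfl
  have h0 : seg w (k * u.length) u.length = seg w 0 u.length := by
    unfold seg
    refine List.map_congr_left fun j _ => ?_
    rw [hper, Nat.zero_add]
  rw [h0]
  conv_lhs => rw [h]
  exact key u w

/-- Acceptance of `u^ω` in terms of the profile of `u`. -/
lemma acc_pow_iff (q : Q) {u : List α} (hu : u ≠ []) {w : ℕ → α} (h : w = app u w) :
    Acc δ pr q w ↔ ∃ π, Even π ∧
      (∃ᶠ k in atTop, ((prof δ pr hd u ((fun q => (prof δ pr hd u q).1)^[k] q)).2 : ℕ) = π + 1) ∧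
      (∀ᶠ k in atTop, ((prof δ pr hd u ((fun q => (prof δ pr hd u q).1)^[k] q)).2 : ℕ) ≤ π + 1) := by
  have hl : 0 < u.length := List.length_pos_iff.2 hu
  have hrun : ∀ k, run δ q w (k * u.length) = (fun q => (prof δ pr hd u q).1)^[k] q := by
    intro k
    induction k with
    | zero => simp [run]
    | succ k ih =>
      rw [Nat.succ_mul, run_seg, seg_of_pow h, Function.iterate_succ_apply', ← ih, prof_fst]
  unfold Acc
  refine pacc_block _ _ u.length hl ?_ ?_
  · intro k j hj
    have := prof_seg_le δ pr hd q w (k * u.length) u.length j hj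
    rw [seg_of_pow h, hrun] at this
    exact this
  · intro k
    obtain ⟨j, hj, he⟩ := prof_seg_eq δ pr hd q w (k * u.length) u.length hl
    rw [seg_of_pow h, hrun] at he
    exact ⟨j, hj, he⟩

lemma acc_pow_congr (q : Q) {u v : List α} (hu : u ≠ []) (hv : v ≠ []) {w w' : ℕ → α}
    (h : w = app u w) (h' : w' = app v w') (huv : prof δ pr hd u = prof δ pr hd v) :
    Acc δ pr q w ↔ Acc δ pr q w' := by
  rw [acc_pow_iff δ pr hd q hu h, acc_pow_iff δ pr hd q hv h', huv]

lemma acc_pow_cycle (q : Q) {u : List α} (hu : u ≠ []) {w : ℕ → α} (h : w = app u w)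
    (hq : u.foldl δ q = q) {π : ℕ} (hπ : ((prof δ pr hd u q).2 : ℕ) = π + 1) :
    Acc δ pr q w ↔ Even π := by
  rw [acc_pow_iff δ pr hd q hu h]
  have hit : ∀ k, (fun q => (prof δ pr hd u q).1)^[k] q = q := by
    intro k
    induction k with
    | zero => rfl
    | succ k ih => rw [Function.iterate_succ_apply', ih, prof_fst, hq]
  simp only [hit, hπ]
  constructor
  · rintro ⟨π', h1, h2, h3⟩
    obtain ⟨_, h2'⟩ := h2.exists
    have : π = π' := by omega
    rwa [this]
  · intro h1
    refine ⟨π, h1, ?_, ?_⟩
    · exact (Eventually.of_forall fun _ => rfl).frequently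
    · exact Eventually.of_forall fun _ => le_refl _

end prof

end Pool.Agent.Lib_MP_369bda_lc
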