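import Pool.Agent.Lib_MP_369bda_lc.Merge
import Pool.Agent.Lib_MP_369bda_lc.Words

/-!
Typed coloured graphs with silent (epsilon) moves; adding a silent move between two vertices
of the same type.
-/

namespace Pool.Agent.Lib_MP_369bda_lc

open Filter

/-- Paths that use coloured steps and silent moves. -/
inductive Path {X α : Type*} (stp : X → α → X → Prop) (E : X → X → Prop) : X → List α → X → Prop
  | nil (x : X) : Path stp E x [] x
  | eps {x : X} {u : List α} {y z : X} : Path stp E x u y → E y z → Path stp E x u z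
  | snoc {x : X} {u : List α} {y : X} {a : α} {z : X} :
      Path stp E x u y → stp y a z → Path stp E x (u ++ [a]) z

section

variable {X α Q M : Type*}

lemma Path.append {stp : X → α → X → Prop} {E : X → X → Prop} {x y z : X} {u v : List α}
    (h1 : Path stp E x u y) (h2 : Path stp E y v z) : Path stp E x (u ++ v) z := by
  induction h2 with
  | nil => simpa using h1
  | eps _ he ih => exact ih.eps he
  | snoc _ hs ih => rw [← List.append_assoc]; exact ih.snoc hs

lemma Path.mono {stp stp' : X → α → X → Prop} {E E' : X → X → Prop} {x y : X} {u : List α}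
    (h : Path stp E x u y) (h1 : ∀ x a y, stp x a y → stp' x a y) (h2 : ∀ x y, E x y → E' x y) :
    Path stp' E' x u y := by
  induction h with
  | nil => exact Path.nil _
  | eps _ he ih => exact ih.eps (h2 _ _ he)
  | snoc _ hs ih => exact ih.snoc (h1 _ _ _ hs)

/-- Decomposition of paths using one new silent move `a → b`. -/
lemma Path.decomp {stp : X → α → X → Prop} {E : X → X → Prop} {a b x y : X} {u : List α}
    (h : Path stp (fun s t => E s t ∨ (s = a ∧ t = b)) x u y) :
    Path stp E x u y ∨ ∃ (u0 : List α) (l : List (List α)) (u1 : List α),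
      u = u0 ++ (l.flatten ++ u1) ∧ Path stp E x u0 a ∧ (∀ v ∈ l, Path stp E b v a) ∧
        Path stp E b u1 y := by
  induction h with
  | nil => exact Or.inl (Path.nil _)
  | @eps u y z _ he ih =>
    rcases he with he | ⟨rfl, rfl⟩
    · rcases ih with ih | ⟨u0, l, u1, rfl, h0, hl, h1⟩
      · exact Or.inl (ih.eps he)
      · exact Or.inr ⟨u0, l, u1, rfl, h0, hl, h1.eps he⟩
    · rcases ih with ih | ⟨u0, l, u1, rfl, h0, hl, h1⟩
      · exact Or.inr ⟨u, [], [], by simp, ih, by simp, Path.nil _⟩
      · refine Or.inr ⟨u0, l ++ [u1], [], by simp, h0, ?_, Path.nil _⟩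
        intro v hv
        rcases List.mem_append.1 hv with hv | hv
        · exact hl v hv
        · rw [List.mem_singleton] at hv; subst hv; exact h1
  | snoc _ hs ih =>
    rcases ih with ih | ⟨u0, l, u1, rfl, h0, hl, h1⟩
    · exact Or.inl (ih.snoc hs)
    · exact Or.inr ⟨u0, l, _, by simp, h0, hl, h1.snoc hs⟩

variable (δ : Q → α → Q) (pr : Q → α → ℕ)

/-- Inclusion of the languages of two states. -/
def Sub (q q' : Q) : Prop := ∀ w, Acc δ pr q w → Acc δ pr q' w

variable {δ pr}

lemma Sub.refl (q : Q) : Sub δ pr q q := fun _ h => h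

lemma Sub.trans {q q' q'' : Q} (h : Sub δ pr q q') (h' : Sub δ pr q' q'') : Sub δ pr q q'' :=
  fun w hw => h' w (h w hw)

lemma Sub.foldl {q q' : Q} (h : Sub δ pr q q') (u : List α) :
    Sub δ pr (u.foldl δ q) (u.foldl δ q') := by
  intro w hw
  rw [← acc_app] at hw ⊢
  exact h _ hw

variable (δ pr)
variable (μ : M → α → M) (st : X → Q) (ty : X → M)

/-- A set of silent moves is good if it respects types and residuals and if all cycles
(with a nonempty label) are winning. -/
structure Good (stp : X → α → X → Prop) (E : X → X → Prop) : Prop where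
  ty_eq : ∀ x y, E x y → ty x = ty y
  sub : ∀ x y, E x y → Sub δ pr (st y) (st x)
  cyc : ∀ x u w, u ≠ [] → Path stp E x u x → w = app u w → Acc δ pr (st x) w

/-- The closure properties derived from one-player games. -/
structure OneP : Prop where
  comp : ∀ x y, ty x = ty y → Sub δ pr (st x) (st y) ∨ Sub δ pr (st y) (st x)
  prog : ∀ x u w, u ≠ [] → u.foldl μ (ty x) = ty x → ¬ Sub δ pr (u.foldl δ (st x)) (st x) →
    w = app u w → Acc δ pr (st x) w
  prod : ∀ x u v w1 w2 w, u ≠ [] → v ≠ [] → u.foldl μ (ty x) = ty x → v.foldl μ (ty x) = ty x →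
    w1 = app u w1 → ¬ Acc δ pr (st x) w1 → w2 = app v w2 → ¬ Acc δ pr (st x) w2 →
    w = app (u ++ v) w → ¬ Acc δ pr (st x) w

variable {δ pr μ st ty}

lemma Path.ri {stp : X → α → X → Prop} {E : X → X → Prop}
    (hstp : ∀ x a y, stp x a y → ty y = μ (ty x) a ∧ st y = δ (st x) a)
    (hty : ∀ x y, E x y → ty x = ty y) (hsub : ∀ x y, E x y → Sub δ pr (st y) (st x))
    {x y : X} {u : List α} (h : Path stp E x u y) :
    u.foldl μ (ty x) = ty y ∧ Sub δ pr (st y) (u.foldl δ (st x)) := by
  induction h with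
  | nil => exact ⟨rfl, Sub.refl _⟩
  | eps _ he ih => exact ⟨ih.1.trans (hty _ _ he), (hsub _ _ he).trans ih.2⟩
  | @snoc u y a z _ hs ih =>
    refine ⟨?_, ?_⟩
    · rw [List.foldl_append, ih.1]; exact (hstp _ _ _ hs).1.symm
    · rw [List.foldl_append, (hstp _ _ _ hs).2]
      exact ih.2.foldl [a]

/-- A criterion for adding the silent move `a → b`. -/
lemma Good.add {stp : X → α → X → Prop} {E : X → X → Prop}
    (hstp : ∀ x a y, stp x a y → ty y = μ (ty x) a ∧ st y = δ (st x) a)
    (hE : Good δ pr st ty stp E) {a b : X} (hab : ty a = ty b) (hs : Sub δ pr (st b) (st a))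
    (H : ∀ l : List (List α), (∀ v ∈ l, Path stp E b v a) → l.flatten ≠ [] →
      ∀ w, w = app l.flatten w → Acc δ pr (st b) w) :
    Good δ pr st ty stp (fun s t => E s t ∨ (s = a ∧ t = b)) := by
  refine ⟨?_, ?_, ?_⟩
  · rintro x y (h | ⟨rfl, rfl⟩)
    · exact hE.ty_eq x y h
    · exact hab
  · rintro x y (h | ⟨rfl, rfl⟩)
    · exact hE.sub x y h
    · exact hs
  · intro x u w hu hp hw
    rcases hp.decomp with h | ⟨u0, l, u1, rfl, h0, hl, h1⟩
    · exact hE.cyc x u w hu h hw
    · have hw2 := pow_append hw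
      set w2 := app (l.flatten ++ u1) w with hw2def
      have hflat : (l ++ [u1 ++ u0]).flatten = l.flatten ++ u1 ++ u0 := by simp
      have hacc : Acc δ pr (st b) w2 := by
        refine H (l ++ [u1 ++ u0]) ?_ ?_ w2 (by rw [hflat]; exact hw2)
        · intro v hv
          rcases List.mem_append.1 hv with hv | hv
          · exact hl v hv
          · rw [List.mem_singleton] at hv; subst hv; exact h1.append h0
        · rw [hflat]
          intro h
          apply hu
          simp only [List.append_eq_nil_iff] at h ⊢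
          tauto
      have h2 : Acc δ pr (u0.foldl δ (st x)) w2 :=
        (h0.ri hstp hE.ty_eq hE.sub).2 _ (hs _ hacc)
      rw [← acc_app] at h2
      have : app u0 w2 = w := by rw [hw2def, ← app_append]; exact hw.symm
      rwa [this] at h2

lemma pow_replicate {u : List α} {w : ℕ → α} (h : w = app u w) (n : ℕ) :
    w = app (List.replicate n u).flatten w := by
  induction n with
  | zero => simp
  | succ n ih =>
    rw [List.replicate_succ, List.flatten_cons, app_append, ← ih]; exact h

/-- For two vertices of the same type, one of the two silent moves between them can be added. -/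
theorem Good.add_one [Finite Q] {d : ℕ} (hd : ∀ q a, pr q a < d)
    {stp : X → α → X → Prop} {E : X → X → Prop}
    (hstp : ∀ x a y, stp x a y → ty y = μ (ty x) a ∧ st y = δ (st x) a)
    (H1 : OneP δ pr μ st ty)
    (hE : Good δ pr st ty stp E) {p p' : X} (hpp : ty p = ty p') :
    Good δ pr st ty stp (fun s t => E s t ∨ (s = p' ∧ t = p)) ∨
      Good δ pr st ty stp (fun s t => E s t ∨ (s = p ∧ t = p')) := by
  classical
  have : Nonempty Q := ⟨st p⟩
  -- first case: the residuals differ
  have case1 : ∀ p p' : X, ty p = ty p' → Sub δ pr (st p) (st p') → ¬ Sub δ pr (st p') (st p) →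
      Good δ pr st ty stp (fun s t => E s t ∨ (s = p' ∧ t = p)) := by
    intro p p' hpp hsub hns
    refine hE.add hstp hpp.symm hsub fun l hl hne w hw => ?_
    have hty : ∀ l : List (List α), (∀ v ∈ l, Path stp E p v p') →
        l.flatten.foldl μ (ty p) = ty p := by
      intro l
      induction l with
      | nil => intro _; rfl
      | cons v l ih =>
        intro hl
        rw [List.flatten_cons, List.foldl_append,
          ((hl v (by simp)).ri hstp hE.ty_eq hE.sub).1, ← hpp]
        exact ih fun v hv => hl v (by simp [hv])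
    have hlr : ∀ l : List (List α), (∀ v ∈ l, Path stp E p v p') → l ≠ [] →
        Sub δ pr (st p') (l.flatten.foldl δ (st p)) := by
      intro l
      induction l with
      | nil => intro _ h; exact absurd rfl h
      | cons v l ih =>
        intro hl _
        rw [List.flatten_cons, List.foldl_append]
        have hv := ((hl v (by simp)).ri hstp hE.ty_eq hE.sub).2
        rcases eq_or_ne l [] with rfl | hne
        · simpa using hv
        · exact (ih (fun v hv => hl v (by simp [hv])) hne).trans ((hsub.trans hv).foldl _)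
    have hlne : l ≠ [] := by rintro rfl; exact hne rfl
    refine H1.prog p l.flatten w hne (hty l hl) ?_ hw
    intro hcon
    exact hns ((hlr l hl hlne).trans hcon)
  by_cases hs1 : Sub δ pr (st p') (st p)
  swap
  · rcases H1.comp p p' hpp with h | h
    · exact Or.inl (case1 p p' hpp h hs1)
    · exact absurd h hs1
  by_cases hs2 : Sub δ pr (st p) (st p')
  swap
  · exact Or.inr (case1 p' p hpp.symm hs1 hs2)
  -- second case: the residuals are equal
  by_contra hcon
  push Not at hcon
  obtain ⟨hc1, hc2⟩ := hcon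
  have hH1 : ∃ l : List (List α), (∀ v ∈ l, Path stp E p v p') ∧ l.flatten ≠ [] ∧
      ∃ w, w = app l.flatten w ∧ ¬ Acc δ pr (st p) w := by
    by_contra h
    push Not at h
    exact hc1 (hE.add hstp hpp.symm hs2 h)
  have hH2 : ∃ l : List (List α), (∀ v ∈ l, Path stp E p' v p) ∧ l.flatten ≠ [] ∧
      ∃ w, w = app l.flatten w ∧ ¬ Acc δ pr (st p') w := by
    by_contra h
    push Not at h
    exact hc2 (hE.add hstp hpp hs1 h)
  obtain ⟨l1, hl1, hne1, w1, hw1, hacc1⟩ := hH1
  obtain ⟨l2, hl2, hne2, w2, hw2, hacc2⟩ := hH2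
  -- typed words
  let TW : List α → Prop := fun u => u.foldl μ (ty p) = ty p ∧ Sub δ pr (st p) (u.foldl δ (st p))
  have TWnil : TW [] := ⟨rfl, Sub.refl _⟩
  have TWapp : ∀ u v, TW u → TW v → TW (u ++ v) := by
    intro u v hu hv
    refine ⟨?_, ?_⟩
    · rw [List.foldl_append, hu.1, hv.1]
    · rw [List.foldl_append]; exact hv.2.trans (hu.2.foldl v)
  have TW1 : ∀ v ∈ l1, TW v := fun v hv => by
    have := (hl1 v hv).ri hstp hE.ty_eq hE.sub
    exact ⟨this.1.trans hpp.symm, hs2.trans this.2⟩
  have TW2 : ∀ v ∈ l2, TW v := fun v hv => by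
    have := (hl2 v hv).ri hstp hE.ty_eq hE.sub
    refine ⟨by rw [hpp]; exact this.1.trans hpp, this.2.trans (hs1.foldl v)⟩
  have TWflat : ∀ l : List (List α), (∀ v ∈ l, TW v) → TW l.flatten := by
    intro l
    induction l with
    | nil => intro _; exact TWnil
    | cons v l ih =>
      intro hl
      rw [List.flatten_cons]
      exact TWapp _ _ (hl v (by simp)) (ih fun v hv => hl v (by simp [hv]))
  let S : Set (Prof Q d) := {x | (∃ v ∈ l1, prof δ pr hd v = x) ∨ (∃ v ∈ l2, prof δ pr hd v = x)}
  let G : Submonoid (Prof Q d) := Submonoid.closure S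
  have hm1 : ∀ v ∈ l1, prof δ pr hd v ∈ G := fun v hv =>
    Submonoid.subset_closure (Or.inl ⟨v, hv, rfl⟩)
  have hm2 : ∀ v ∈ l2, prof δ pr hd v ∈ G := fun v hv =>
    Submonoid.subset_closure (Or.inr ⟨v, hv, rfl⟩)
  let As : List G := l1.pmap (fun v (hv : prof δ pr hd v ∈ G) => ⟨prof δ pr hd v, hv⟩) hm1
  let Bs : List G := l2.pmap (fun v (hv : prof δ pr hd v ∈ G) => ⟨prof δ pr hd v, hv⟩) hm2
  have hAs : (As.prod : Prof Q d) = prof δ pr hd l1.flatten := by
    rw [Submonoid.coe_list_prod, prof_flatten]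
    congr 1
    simp only [As, List.map_pmap]
    exact List.pmap_eq_map ..
  have hBs : (Bs.prod : Prof Q d) = prof δ pr hd l2.flatten := by
    rw [Submonoid.coe_list_prod, prof_flatten]
    congr 1
    simp only [Bs, List.map_pmap]
    exact List.pmap_eq_map ..
  have rep : ∀ n ∈ G, ∃ u, TW u ∧ prof δ pr hd u = n := by
    intro n hn
    induction hn using Submonoid.closure_induction with
    | mem x hx =>
      rcases hx with ⟨v, hv, rfl⟩ | ⟨v, hv, rfl⟩
      · exact ⟨v, TW1 v hv, rfl⟩
      · exact ⟨v, TW2 v hv, rfl⟩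
    | one => exact ⟨[], TWnil, rfl⟩
    | mul x y _ _ ihx ihy =>
      obtain ⟨u, hu, rfl⟩ := ihx
      obtain ⟨v, hv, rfl⟩ := ihy
      exact ⟨u ++ v, TWapp u v hu hv, prof_append ..⟩
  let Lo : G → Prop := fun n => ∃ u w, u ≠ [] ∧ TW u ∧ prof δ pr hd u = n ∧ w = app u w ∧
    ¬ Acc δ pr (st p) w
  have : Finite G := Subtype.finite
  refine merge_lemma Lo ?_ ?_ ?_ As Bs ?_ ?_ ?_ ?_
  · -- products
    rintro s t ⟨u, w, hu, htu, hpu, hw, hacc⟩ ⟨u', w', hu', htu', hpu', hw', hacc'⟩
    obtain ⟨w'', hw''⟩ := pow_exists (u := u ++ u') (by simp [hu])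
    refine ⟨u ++ u', w'', by simp [hu], TWapp _ _ htu htu', ?_, hw'', ?_⟩
    · rw [prof_append, hpu, hpu']; rfl
    · exact H1.prod p u u' w w' w'' hu hu' htu.1 htu'.1 hw hacc hw' hacc' hw''
  · -- rotation
    rintro s t ⟨u, w, hu, htu, hpu, hw, hacc⟩
    obtain ⟨u1, htu1, hpu1⟩ := rep s.1 s.2
    obtain ⟨u2, htu2, hpu2⟩ := rep t.1 t.2
    have hp12 : prof δ pr hd (u1 ++ u2) = prof δ pr hd u := by
      rw [prof_append, hpu1, hpu2, hpu]; rfl
    have hne : u1 ++ u2 ≠ [] := by
      intro h
      rw [h, prof_nil] at hp12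
      exact prof_ne_one δ pr hd hu hp12.symm
    obtain ⟨w', hw'⟩ := pow_exists hne
    have hacc' : ¬ Acc δ pr (st p) w' := by
      rwa [acc_pow_congr δ pr hd (st p) hne hu hw' hw hp12]
    have hrot := pow_append hw'
    refine ⟨u2 ++ u1, app u2 w', ?_, TWapp _ _ htu2 htu1, ?_, hrot, ?_⟩
    · simp only [ne_eq, List.append_eq_nil_iff] at hne ⊢
      tauto
    · rw [prof_append, hpu1, hpu2]; rfl
    · intro h
      apply hacc'
      have h2 := htu1.2 _ h
      rw [← acc_app, ← app_append, ← hw'] at h2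
      exact h2
  · -- powers
    intro s n hn
    have hprep : ∀ u : List α, prof δ pr hd (List.replicate n u).flatten = prof δ pr hd u ^ n := by
      intro u
      rw [prof_flatten, List.map_replicate, List.prod_replicate]
    have hTWrep : ∀ u, TW u → TW (List.replicate n u).flatten := by
      intro u hu
      exact TWflat _ fun v hv => by rw [List.eq_of_mem_replicate hv]; exact hu
    have hrepne : ∀ u : List α, u ≠ [] → (List.replicate n u).flatten ≠ [] := by
      intro u hu h
      rw [List.flatten_eq_nil_iff] at h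
      exact hu (h u (List.mem_replicate.2 ⟨by omega, rfl⟩))
    constructor
    · rintro ⟨u, w, hu, htu, hpu, hw, hacc⟩
      obtain ⟨v, htv, hpv⟩ := rep s.1 s.2
      have hpe : prof δ pr hd (List.replicate n v).flatten = prof δ pr hd u := by
        rw [hprep, hpv, hpu]; rfl
      have hvne : v ≠ [] := by
        rintro rfl
        apply prof_ne_one δ pr hd hu
        rw [← hpe, hprep, prof_nil, one_pow]
      obtain ⟨w', hw'⟩ := pow_exists hvne
      refine ⟨v, w', hvne, htv, hpv, hw', ?_⟩
      rwa [acc_pow_congr δ pr hd (st p) (hrepne v hvne) hu (pow_replicate hw' n) hw hpe]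
    · rintro ⟨u, w, hu, htu, hpu, hw, hacc⟩
      refine ⟨(List.replicate n u).flatten, w, hrepne u hu, hTWrep u htu, ?_, pow_replicate hw n,
        hacc⟩
      rw [hprep, hpu]; rfl
  · exact ⟨l1.flatten, w1, hne1, TWflat l1 TW1, hAs.symm, hw1, hacc1⟩
  · exact ⟨l2.flatten, w2, hne2, TWflat l2 TW2, hBs.symm, hw2, fun h => hacc2 (hs2 _ h)⟩
  · -- generation
    have : {x : G | x ∈ As ∨ x ∈ Bs} = ((↑) : G → Prof Q d) ⁻¹' S := by
      ext x
      simp only [As, Bs, List.mem_pmap, Set.mem_preimage, Set.mem_ofPred_eq, S]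
      constructor
      · rintro (⟨v, hv, rfl⟩ | ⟨v, hv, rfl⟩)
        · exact Or.inl ⟨v, hv, rfl⟩
        · exact Or.inr ⟨v, hv, rfl⟩
      · rintro (⟨v, hv, h⟩ | ⟨v, hv, h⟩)
        · exact Or.inl ⟨v, hv, Subtype.ext h⟩
        · exact Or.inr ⟨v, hv, Subtype.ext h⟩
    rw [this]
    exact Submonoid.closure_closure_coe_preimage
  · -- alternating products are winning
    intro t ht
    have hcy : ∃ u, Path stp E p u p ∧ prof δ pr hd u = (t : Prof Q d) := by
      induction ht using Submonoid.closure_induction with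
      | mem x hx =>
        obtain ⟨a, ha, b, hb, rfl⟩ := hx
        simp only [As, Bs, List.mem_pmap] at ha hb
        obtain ⟨v, hv, rfl⟩ := ha
        obtain ⟨v', hv', rfl⟩ := hb
        exact ⟨v ++ v', (hl1 v hv).append (hl2 v' hv'), prof_append ..⟩
      | one => exact ⟨[], Path.nil _, rfl⟩
      | mul x y _ _ ihx ihy =>
        obtain ⟨u, hu, hux⟩ := ihx
        obtain ⟨v, hv, hvy⟩ := ihy
        exact ⟨u ++ v, hu.append hv, by rw [prof_append, hux, hvy]; rfl⟩
    obtain ⟨u, hu, hut⟩ := hcy
    rintro ⟨v, w, hv, htv, hpv, hw, hacc⟩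
    have hune : u ≠ [] := by
      rintro rfl
      rw [prof_nil, ← hpv] at hut
      exact prof_ne_one δ pr hd hv hut.symm
    obtain ⟨w', hw'⟩ := pow_exists hune
    have h1 := hE.cyc p u w' hune hu hw'
    rw [acc_pow_congr δ pr hd (st p) hune hv hw' hw (hut.trans hpv.symm)] at h1
    exact hacc h1

end

end Pool.Agent.Lib_MP_369bda_lc
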