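import Mathlib

/-!
The algebraic heart of the one-to-two-player lift: a lemma on finite monoids `N` with a
predicate `Lo` that is closed under products, rotations and roots/powers.
-/

namespace Pool.Agent.Lib_MP_369bda_lc

section merge

variable {N : Type*} [Monoid N]

/-- Every element of a finite monoid has an idempotent positive power. -/
lemma exists_idem_pow [Finite N] (s : N) : ∃ n, 0 < n ∧ s ^ n * s ^ n = s ^ n := by
  obtain ⟨i, j, hij, h⟩ := Finite.exists_ne_map_eq_of_infinite (fun n : ℕ => s ^ (n + 1))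
  wlog hlt : i < j generalizing i j
  · exact this j i (Ne.symm hij) h.symm (lt_of_le_of_ne (not_lt.1 hlt) (Ne.symm hij))
  -- `s ^ (i+1) = s ^ (j+1)`, with `i < j`
  set p := j - i with hp
  have hp0 : 0 < p := by omega
  have h1 : ∀ m, i + 1 ≤ m → s ^ (m + p) = s ^ m := by
    intro m hm
    have e1 : m + p = (m - (i + 1)) + (j + 1) := by omega
    have e2 : m = (m - (i + 1)) + (i + 1) := by omega
    rw [e1, pow_add, ← h, ← pow_add, ← e2]
  have h2 : ∀ m, i + 1 ≤ m → ∀ l, s ^ (m + l * p) = s ^ m := by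
    intro m hm l
    induction l with
    | zero => simp
    | succ l ih =>
      have : m + (l + 1) * p = (m + l * p) + p := by ring
      rw [this, h1 _ (by omega), ih]
  refine ⟨(i + 1) * p, by positivity, ?_⟩
  rw [← pow_add]
  have h3 : i + 1 ≤ (i + 1) * p := Nat.le_mul_of_pos_right _ hp0
  exact h2 _ h3 (i + 1)

/-- A submonoid of a finite monoid contains an idempotent generating a minimal right ideal. -/
lemma exists_min_idem [Finite N] (T : Submonoid N) :
    ∃ e ∈ T, e * e = e ∧ ∀ t ∈ T, ∃ t' ∈ T, e * t * t' = e := by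
  classical
  -- minimise the size of the right ideal
  let R : N → Set N := fun s => (fun t => s * t) '' (T : Set N)
  have hne : (T : Set N).Nonempty := ⟨1, T.one_mem⟩
  obtain ⟨e1, he1, hmin⟩ : ∃ e1 ∈ (T : Set N), ∀ s ∈ (T : Set N), (R e1).ncard ≤ (R s).ncard := by
    obtain ⟨a, ha, hb⟩ := Set.exists_min_image (T : Set N) (fun s => (R s).ncard)
      (Set.toFinite _) hne
    exact ⟨a, ha, hb⟩
  obtain ⟨n, hn, hidem⟩ := exists_idem_pow e1
  refine ⟨e1 ^ n, T.pow_mem he1 n, hidem, fun t ht => ?_⟩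
  have hsub : R (e1 ^ n * t) ⊆ R e1 := by
    rintro _ ⟨u, hu, rfl⟩
    refine ⟨e1 ^ (n - 1) * t * u, T.mul_mem (T.mul_mem (T.pow_mem he1 _) ht) hu, ?_⟩
    simp only
    rw [← mul_assoc, ← mul_assoc, ← pow_succ', Nat.sub_add_cancel hn]
  have heq : R (e1 ^ n * t) = R e1 :=
    Set.eq_of_subset_of_ncard_le hsub (hmin _ (T.mul_mem (T.pow_mem he1 n) ht)) (Set.toFinite _)
  have hmem : e1 ^ n ∈ R (e1 ^ n * t) := by
    rw [heq]
    refine ⟨e1 ^ (n - 1), T.pow_mem he1 _, ?_⟩
    simp only
    rw [← pow_succ', Nat.sub_add_cancel hn]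
  obtain ⟨t', ht', h'⟩ := hmem
  exact ⟨t', ht', h'⟩

variable [Finite N] (Lo : N → Prop)

/-- The merge lemma. -/
theorem merge_lemma
    (hmul : ∀ s t, Lo s → Lo t → Lo (s * t))
    (hrot : ∀ s t, Lo (s * t) → Lo (t * s))
    (hpow : ∀ s n, 0 < n → (Lo (s ^ n) ↔ Lo s))
    (As Bs : List N) (hA : Lo As.prod) (hB : Lo Bs.prod)
    (hgen : Submonoid.closure {x | x ∈ As ∨ x ∈ Bs} = ⊤)
    (halt : ∀ t ∈ Submonoid.closure {x | ∃ a ∈ As, ∃ b ∈ Bs, x = a * b}, ¬ Lo t) : False := by
  classical
  set T := Submonoid.closure {x | ∃ a ∈ As, ∃ b ∈ Bs, x = a * b} with hT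
  set T' := Submonoid.closure {x | ∃ b ∈ Bs, ∃ a ∈ As, x = b * a} with hT'
  have h1 : ¬ Lo 1 := halt 1 T.one_mem
  have hAne : As ≠ [] := by rintro rfl; exact h1 hA
  have hBne : Bs ≠ [] := by rintro rfl; exact h1 hB
  obtain ⟨a0, ha0⟩ := List.exists_mem_of_ne_nil As hAne
  obtain ⟨b0, hb0⟩ := List.exists_mem_of_ne_nil Bs hBne
  -- the idempotent `e`
  obtain ⟨e, heT, hee, hemin⟩ := exists_min_idem T
  have heHi : ¬ Lo e := halt e heT
  -- the idempotent `ι`
  obtain ⟨ι, ⟨hιι, hιHi, hιe⟩, hιmin⟩ : ∃ ι, (ι * ι = ι ∧ ¬ Lo ι ∧ ι * e = ι) ∧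
      ∀ κ, κ * κ = κ → ¬ Lo κ → κ * ι = κ → ι * κ = κ → κ = ι := by
    obtain ⟨ι, hι, hmin⟩ := Set.exists_min_image {ι : N | ι * ι = ι ∧ ¬ Lo ι ∧ ι * e = ι}
      (fun ι => {x : N | ι * x * ι = x}.ncard) (Set.toFinite _) ⟨e, hee, heHi, hee⟩
    refine ⟨ι, hι, fun κ hκ hκHi h1 h2 => ?_⟩
    have hκe : κ * e = κ := by rw [← h1, mul_assoc, hι.2.2]
    have hsub : {x : N | κ * x * κ = x} ⊆ {x : N | ι * x * ι = x} := by
      intro x hx
      simp only [Set.mem_ofPred_eq] at hx ⊢
      calc ι * x * ι = ι * (κ * x * κ) * ι := by rw [hx]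
        _ = (ι * κ) * x * (κ * ι) := by simp only [mul_assoc]
        _ = κ * x * κ := by rw [h1, h2]
        _ = x := hx
    have heq := Set.eq_of_subset_of_ncard_le hsub (hmin κ ⟨hκ, hκHi, hκe⟩) (Set.toFinite _)
    have hι' : ι ∈ {x : N | κ * x * κ = x} := by
      rw [heq]; simp only [Set.mem_ofPred_eq]; rw [hι.1, hι.1]
    simp only [Set.mem_ofPred_eq] at hι'
    rw [h1, hκ] at hι'
    exact hι'
  -- units of `ι N ι` are not `Lo`
  have unitHi : ∀ c d, c * ι = c → c * d = ι → ¬ Lo c := by
    intro c d hc hcd hLo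
    obtain ⟨n, hn, hidem⟩ := exists_idem_pow c
    have hpw : ∀ k, ∃ dk, c ^ k * dk = ι := by
      intro k
      induction k with
      | zero => exact ⟨ι, by simp⟩
      | succ k ih =>
        obtain ⟨dk, hdk⟩ := ih
        refine ⟨dk * d, ?_⟩
        calc c ^ (k + 1) * (dk * d) = c * (c ^ k * dk) * d := by
              rw [pow_succ']; simp only [mul_assoc]
          _ = c * ι * d := by rw [hdk]
          _ = ι := by rw [hc, hcd]
    obtain ⟨dn, hdn⟩ := hpw n
    have hκι : c ^ n * ι = c ^ n := by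
      obtain ⟨m, rfl⟩ : ∃ m, n = m + 1 := ⟨n - 1, by omega⟩
      rw [pow_succ, mul_assoc, hc]
    have : c ^ n = ι := by
      calc c ^ n = c ^ n * ι := hκι.symm
        _ = c ^ n * (c ^ n * dn) := by rw [hdn]
        _ = (c ^ n * c ^ n) * dn := by rw [mul_assoc]
        _ = ι := by rw [hidem, hdn]
    exact hιHi (this ▸ (hpow c n hn).2 hLo)
  -- non-units of `ι N ι` are `Lo`
  have nonunitLo : ∀ c, ι * c = c → c * ι = c → (∀ d, c * d ≠ ι) → Lo c := by
    intro c hc1 hc2 hnu
    obtain ⟨n, hn, hidem⟩ := exists_idem_pow c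
    by_contra hLo
    have hκHi : ¬ Lo (c ^ n) := fun h => hLo ((hpow c n hn).1 h)
    obtain ⟨m, rfl⟩ : ∃ m, n = m + 1 := ⟨n - 1, by omega⟩
    have e1 : c ^ (m + 1) * ι = c ^ (m + 1) := by rw [pow_succ, mul_assoc, hc2]
    have e2 : ι * c ^ (m + 1) = c ^ (m + 1) := by rw [pow_succ', ← mul_assoc, hc1]
    have := hιmin _ hidem hκHi e1 e2
    exact hnu (c ^ m) (by rw [← pow_succ', this])
  let alive : N → Prop := fun x => ∃ y, ι * x * y = ι
  have alive_def : ∀ x, alive x ↔ ∃ y, ι * x * y = ι := fun _ => Iff.rfl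
  have alive_prefix : ∀ x y, alive (x * y) → alive x := by
    rintro x y ⟨z, hz⟩
    exact ⟨y * z, by simp only [mul_assoc] at hz ⊢; exact hz⟩
  -- a word from a live state to a dead one, closed up, is `Lo`
  have deadLo : ∀ x s y, ¬ alive (x * s) → Lo (s * y * ι * x) := by
    intro x s y hdead
    have h2 : Lo (ι * x * s * y * ι) := by
      apply nonunitLo
      · simp only [← mul_assoc, hιι]
      · simp only [mul_assoc, hιι]
      · intro d hd
        exact hdead ⟨y * ι * d, by simp only [mul_assoc] at hd ⊢; exact hd⟩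
    have h3 : Lo ((ι * x) * (s * y * ι)) := by
      have : (ι * x) * (s * y * ι) = ι * x * s * y * ι := by simp only [mul_assoc]
      rw [this]; exact h2
    have h4 := hrot _ _ h3
    have : s * y * ι * x = s * y * ι * (ι * x) := by
      rw [← mul_assoc (s * y * ι) ι x, mul_assoc (s * y) ι ι, hιι]
    rw [this]; exact h4
  -- chain property
  have chain : ∀ x1 x2 s1 s2, alive (x1 * s1) → alive (x2 * s2) →
      alive (x2 * s1) ∨ alive (x1 * s2) := by
    intro x1 x2 s1 s2 h1 h2
    by_contra hcon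
    push Not at hcon
    obtain ⟨hd1, hd2⟩ := hcon
    obtain ⟨y1, hy1⟩ := h1
    obtain ⟨y2, hy2⟩ := h2
    have l1 := deadLo x2 s1 y1 hd1
    have l2 := deadLo x1 s2 y2 hd2
    have l3 := hmul _ _ l1 l2
    have e1 : s1 * y1 * ι * x2 * (s2 * y2 * ι * x1) = (s1 * y1) * (ι * x1) := by
      calc s1 * y1 * ι * x2 * (s2 * y2 * ι * x1)
          = s1 * y1 * (ι * (x2 * s2) * y2) * ι * x1 := by simp only [mul_assoc]
        _ = s1 * y1 * ι * ι * x1 := by rw [hy2]
        _ = (s1 * y1) * (ι * x1) := by
            rw [mul_assoc (s1 * y1) ι ι, hιι]; simp only [mul_assoc]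
    rw [e1] at l3
    have l4 := hrot _ _ l3
    have e2 : ι * x1 * (s1 * y1) = ι := by simp only [mul_assoc] at hy1 ⊢; exact hy1
    rw [e2] at l4
    exact hιHi l4
  let Λp : N → Prop := fun x => ∀ t ∈ T, alive (x * t)
  let Λq : N → Prop := fun x => ∀ t ∈ T', alive (x * t)
  have Λp1 : Λp 1 := by
    intro t ht
    obtain ⟨t', ht', h'⟩ := hemin t ht
    refine ⟨t', ?_⟩
    rw [one_mul]
    calc ι * t * t' = ι * e * t * t' := by rw [hιe]
      _ = ι * (e * t * t') := by simp only [mul_assoc]
      _ = ι := by rw [h', hιe]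
  have aTb : ∀ t ∈ T', ∀ a ∈ As, ∀ b ∈ Bs, a * t * b ∈ T := by
    intro t ht
    induction ht using Submonoid.closure_induction_left with
    | one => intro a ha b hb; rw [mul_one]; exact Submonoid.subset_closure ⟨a, ha, b, hb, rfl⟩
    | mul_left x hx y hy ih =>
      obtain ⟨b', hb', a', ha', rfl⟩ := hx
      intro a ha b hb
      have : a * (b' * a' * y) * b = (a * b') * (a' * y * b) := by simp only [mul_assoc]
      rw [this]
      exact T.mul_mem (Submonoid.subset_closure ⟨a, ha, b', hb', rfl⟩) (ih a' ha' b hb)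
  have bTa : ∀ t ∈ T, ∀ b ∈ Bs, ∀ a ∈ As, b * t * a ∈ T' := by
    intro t ht
    induction ht using Submonoid.closure_induction_left with
    | one => intro b hb a ha; rw [mul_one]; exact Submonoid.subset_closure ⟨b, hb, a, ha, rfl⟩
    | mul_left x hx y hy ih =>
      obtain ⟨a', ha', b', hb', rfl⟩ := hx
      intro b hb a ha
      have : b * (a' * b' * y) * a = (b * a') * (b' * y * a) := by simp only [mul_assoc]
      rw [this]
      exact T'.mul_mem (Submonoid.subset_closure ⟨b, hb, a', ha', rfl⟩) (ih b' hb' a ha)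
  have stepA : ∀ x, Λp x → ∀ a ∈ As, Λq (x * a) := by
    intro x hx a ha t ht
    have := hx _ (aTb t ht a ha b0 hb0)
    apply alive_prefix _ b0
    have e1 : x * a * t * b0 = x * (a * t * b0) := by simp only [mul_assoc]
    rw [e1]; exact this
  have stepB : ∀ x, Λq x → ∀ b ∈ Bs, Λp (x * b) := by
    intro x hx b hb t ht
    have := hx _ (bTa t ht b hb a0 ha0)
    apply alive_prefix _ a0
    have e1 : x * b * t * a0 = x * (b * t * a0) := by simp only [mul_assoc]
    rw [e1]; exact this
  have aliveOfp : ∀ x, Λp x → alive x := fun x hx => by simpa using hx 1 T.one_mem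
  -- the final contradiction from a state separating the two types
  have finish : ∀ μ P β, Lo P → ¬ alive (μ * β) → alive (μ * P * β) → False := by
    intro μ P β hP hdead ⟨y, hy⟩
    have l1 := deadLo μ β y hdead
    have l2 := hmul _ _ hP l1
    have e1 : P * (β * y * ι * μ) = (P * β * y) * (ι * μ) := by simp only [mul_assoc]
    rw [e1] at l2
    have l3 := hrot _ _ l2
    have e2 : ι * μ * (P * β * y) = ι := by simp only [mul_assoc] at hy ⊢; exact hy
    rw [e2] at l3
    exact hιHi l3
  -- the case where the two types coincide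
  have both : (∀ x, Λq x → Λp x) → (∀ x, Λp x → Λq x) → False := by
    intro hqp hpq
    have hall : ∀ s, Λp s := by
      intro s
      induction s using Submonoid.induction_of_closure_eq_top_right hgen with
      | one => exact Λp1
      | mul_right x y hy ih =>
        rcases hy with hy | hy
        · exact hqp _ (stepA x ih y hy)
        · exact stepB x (hpq _ ih) y hy
    have hcompl : ∀ s, ∃ s', Lo (s * s') := by
      intro s
      induction s using Submonoid.induction_of_closure_eq_top_right hgen with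
      | one => exact ⟨As.prod, by rwa [one_mul]⟩
      | mul_right x y hy ih =>
        obtain ⟨x', hx'⟩ := ih
        obtain ⟨y', hy'⟩ : ∃ y', Lo (y * y') := by
          rcases hy with hy | hy
          · obtain ⟨l1, l2, hl⟩ := List.append_of_mem hy
            rw [hl, List.prod_append, List.prod_cons] at hA
            refine ⟨l2.prod * l1.prod, ?_⟩
            have := hrot _ _ hA
            rwa [mul_assoc] at this
          · obtain ⟨l1, l2, hl⟩ := List.append_of_mem hy
            rw [hl, List.prod_append, List.prod_cons] at hB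
            refine ⟨l2.prod * l1.prod, ?_⟩
            have := hrot _ _ hB
            rwa [mul_assoc] at this
        refine ⟨y' * x', ?_⟩
        have h3 := hmul _ _ (hrot _ _ hx') hy'
        have h4 : Lo (x' * (x * (y * y'))) := by rwa [← mul_assoc]
        have h5 := hrot _ _ h4
        have e1 : x * y * (y' * x') = x * (y * y') * x' := by simp only [mul_assoc]
        rw [e1]; exact h5
    obtain ⟨ι', hι'⟩ := hcompl ι
    -- `c = ι ι' ι`
    have h3 : Lo (ι' * ι) := hrot _ _ hι'
    have h4 : Lo (ι * ι' * ι) := by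
      apply hrot
      have : ι * (ι * ι') = ι * ι' := by rw [← mul_assoc, hιι]
      rw [this]; exact hι'
    obtain ⟨y, hy⟩ := aliveOfp _ (hall (ι' * ι))
    refine unitHi (ι * ι' * ι) y (by rw [mul_assoc, hιι]) ?_ h4
    simp only [mul_assoc] at hy ⊢; exact hy
  have hincl : (∀ x, Λq x → Λp x) ∨ (∀ x, Λp x → Λq x) := by
    by_contra hcon
    push Not at hcon
    obtain ⟨⟨x, hxq, hxp⟩, ⟨x', hx'p, hx'q⟩⟩ := hcon
    have hxp' : ∃ t ∈ T, ¬ alive (x * t) := by
      by_contra h; push Not at h; exact hxp h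
    have hxq' : ∃ t ∈ T', ¬ alive (x' * t) := by
      by_contra h; push Not at h; exact hx'q h
    obtain ⟨t, ht, hdt⟩ := hxp'
    obtain ⟨t', ht', hdt'⟩ := hxq'
    rcases chain x' x t t' (hx'p t ht) (hxq t' ht') with h | h
    · exact hdt h
    · exact hdt' h
  rcases hincl with hqp | hpq
  · by_cases hpq : ∀ x, Λp x → Λq x
    · exact both hqp hpq
    · push Not at hpq
      obtain ⟨μ, hμp, hμq⟩ := hpq
      have : ∃ t ∈ T', ¬ alive (μ * t) := by
        by_contra h; push Not at h; exact hμq h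
      obtain ⟨β, hβ, hdead⟩ := this
      have hl : ∀ l : List N, (∀ a ∈ l, a ∈ As) → l ≠ [] → ∀ x, Λp x → Λq (x * l.prod) := by
        intro l
        induction l with
        | nil => intro _ h; exact absurd rfl h
        | cons a l ih =>
          intro hl _ x hx
          rw [List.prod_cons, ← mul_assoc]
          have h2 := stepA x hx a (hl a (by simp))
          rcases eq_or_ne l [] with rfl | hne
          · simpa using h2
          · exact ih (fun a ha => hl a (by simp [ha])) hne _ (hqp _ h2)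
      exact finish μ As.prod β hA hdead (hl As (fun a h => h) hAne μ hμp β hβ)
  · by_cases hqp : ∀ x, Λq x → Λp x
    · exact both hqp hpq
    · push Not at hqp
      obtain ⟨μ, hμq, hμp⟩ := hqp
      have : ∃ t ∈ T, ¬ alive (μ * t) := by
        by_contra h; push Not at h; exact hμp h
      obtain ⟨β, hβ, hdead⟩ := this
      have hl : ∀ l : List N, (∀ b ∈ l, b ∈ Bs) → l ≠ [] → ∀ x, Λq x → Λp (x * l.prod) := by
        intro l
        induction l with
        | nil => intro _ h; exact absurd rfl h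
        | cons b l ih =>
          intro hl _ x hx
          rw [List.prod_cons, ← mul_assoc]
          have h2 := stepB x hx b (hl b (by simp))
          rcases eq_or_ne l [] with rfl | hne
          · simpa using h2
          · exact ih (fun a ha => hl a (by simp [ha])) hne _ (hpq _ h2)
      exact finish μ Bs.prod β hB hdead (hl Bs (fun a h => h) hBne μ hμq β hβ)

end merge

end Pool.Agent.Lib_MP_369bda_lc
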