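import Pool.Agent.Lib_MP_369bda_lc.Graph

/-!
Saturation with silent moves (finite case and compactness), infinite paths, least elements.
-/

namespace Pool.Agent.Lib_MP_369bda_lc

open Filter

section

variable {X α Q M : Type*} {δ : Q → α → Q} {pr : Q → α → ℕ} {μ : M → α → M} {st : X → Q}
  {ty : X → M} {d : ℕ}

/-- Restriction of the steps to a finite set of vertices. -/
def stpF (stp : X → α → X → Prop) (F : Finset X) : X → α → X → Prop :=
  fun x a y => stp x a y ∧ x ∈ F ∧ y ∈ F

lemma Good.anti {stp stp' : X → α → X → Prop} {E E' : X → X → Prop}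
    (h : Good δ pr st ty stp E) (h1 : ∀ x a y, stp' x a y → stp x a y)
    (h2 : ∀ x y, E' x y → E x y) : Good δ pr st ty stp' E' :=
  ⟨fun x y hxy => h.ty_eq x y (h2 _ _ hxy), fun x y hxy => h.sub x y (h2 _ _ hxy),
    fun x u w hu hp hw => h.cyc x u w hu (hp.mono h1 h2) hw⟩

lemma saturate_finite [Finite Q] (hd : ∀ q a, pr q a < d) {stp : X → α → X → Prop}
    {E0 : X → X → Prop}
    (hstp : ∀ x a y, stp x a y → ty y = μ (ty x) a ∧ st y = δ (st x) a)
    (H1 : OneP δ pr μ st ty) (hE0 : Good δ pr st ty stp E0) (F : Finset X) :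
    ∃ R : X → X → Prop, Good δ pr st ty (stpF stp F) R ∧
      (∀ x ∈ F, ∀ y ∈ F, E0 x y → R x y) ∧
      (∀ x ∈ F, ∀ y ∈ F, ty x = ty y → R x y ∨ R y x) := by
  classical
  let P : Finset (X × X) → Prop := fun R =>
    (∀ x ∈ F, ∀ y ∈ F, E0 x y → (x, y) ∈ R) ∧
      Good δ pr st ty (stpF stp F) (fun x y => (x, y) ∈ R)
  have hne : (((F ×ˢ F).powerset).filter P).Nonempty := by
    refine ⟨(F ×ˢ F).filter fun p => E0 p.1 p.2, ?_⟩
    rw [Finset.mem_filter]
    refine ⟨Finset.mem_powerset.2 (Finset.filter_subset _ _), ?_, ?_⟩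
    · intro x hx y hy h
      simp [hx, hy, h]
    · exact hE0.anti (fun x a y h => h.1) (fun x y h => (Finset.mem_filter.1 h).2)
  obtain ⟨R, hR, hmax⟩ := Finset.exists_max_image _ Finset.card hne
  rw [Finset.mem_filter, Finset.mem_powerset] at hR
  obtain ⟨hRF, hR0, hRG⟩ := hR
  refine ⟨fun x y => (x, y) ∈ R, hRG, hR0, ?_⟩
  intro x hx y hy hxy
  by_contra hcon
  push Not at hcon
  obtain ⟨hn1, hn2⟩ := hcon
  have hstp' : ∀ x a y, stpF stp F x a y → ty y = μ (ty x) a ∧ st y = δ (st x) a :=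
    fun x a y h => hstp x a y h.1
  have key : ∀ a b : X, a ∈ F → b ∈ F → (a, b) ∉ R →
      ¬ Good δ pr st ty (stpF stp F) (fun s t => (s, t) ∈ R ∨ (s = a ∧ t = b)) := by
    intro a b ha hb hab hG
    have hmem : insert (a, b) R ∈ ((F ×ˢ F).powerset).filter P := by
      rw [Finset.mem_filter, Finset.mem_powerset]
      refine ⟨?_, ?_, ?_⟩
      · rw [Finset.insert_subset_iff]
        exact ⟨by simp [ha, hb], hRF⟩
      · intro x hx y hy h
        exact Finset.mem_insert_of_mem (hR0 x hx y hy h)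
      · refine hG.anti (fun _ _ _ h => h) fun s t h => ?_
        rcases Finset.mem_insert.1 h with h | h
        · right; simpa using h
        · left; exact h
    have h1 := hmax _ hmem
    rw [Finset.card_insert_of_notMem hab] at h1
    omega
  rcases hRG.add_one hd hstp' H1 hxy with h | h
  · exact key y x hy hx hn2 h
  · exact key x y hx hy hn1 h

/-- Saturation: a good set of silent moves extends to a good total one. -/
theorem saturate [Finite Q] (hd : ∀ q a, pr q a < d) {stp : X → α → X → Prop}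
    {E0 : X → X → Prop}
    (hstp : ∀ x a y, stp x a y → ty y = μ (ty x) a ∧ st y = δ (st x) a)
    (H1 : OneP δ pr μ st ty) (hE0 : Good δ pr st ty stp E0) :
    ∃ E : X → X → Prop, Good δ pr st ty stp E ∧ (∀ x y, E0 x y → E x y) ∧
      (∀ x y, ty x = ty y → E x y ∨ E y x) := by
  classical
  choose R hRG hR0 hRt using saturate_finite hd hstp H1 hE0
  let V : Ultrafilter (Finset X) := Ultrafilter.of atTop
  have hV : (V : Filter (Finset X)) ≤ atTop := Ultrafilter.of_le _
  have hmem : ∀ x : X, ∀ᶠ F in (V : Filter (Finset X)), x ∈ F := by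
    intro x
    apply hV
    filter_upwards [eventually_ge_atTop ({x} : Finset X)] with F hF
    exact hF (Finset.mem_singleton_self x)
  have hpath : ∀ x u y, Path stp (fun x y => ∀ᶠ F in (V : Filter (Finset X)), R F x y) x u y →
      ∀ᶠ F in (V : Filter (Finset X)), Path (stpF stp F) (R F) x u y := by
    intro x u y h
    induction h with
    | nil => exact Eventually.of_forall fun F => Path.nil _
    | eps _ he ih =>
      filter_upwards [ih, he] with F h1 h2
      exact h1.eps h2
    | @snoc u y a z _ hs ih =>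
      filter_upwards [ih, hmem y, hmem z] with F h1 h2 h3
      exact h1.snoc ⟨hs, h2, h3⟩
  refine ⟨fun x y => ∀ᶠ F in (V : Filter (Finset X)), R F x y, ⟨?_, ?_, ?_⟩, ?_, ?_⟩
  · intro x y h
    obtain ⟨F, hF⟩ := h.exists
    exact (hRG F).ty_eq x y hF
  · intro x y h
    obtain ⟨F, hF⟩ := h.exists
    exact (hRG F).sub x y hF
  · intro x u w hu hp hw
    obtain ⟨F, hF⟩ := (hpath x u x hp).exists
    exact (hRG F).cyc x u w hu hF hw
  · intro x y h
    filter_upwards [hmem x, hmem y] with F h1 h2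
    exact hR0 F x h1 y h2 h
  · intro x y h
    rw [← Ultrafilter.eventually_or]
    filter_upwards [hmem x, hmem y] with F h1 h2
    exact hRt F x h1 y h2 h

lemma exists_limsup (a : ℕ → ℕ) (d : ℕ) (ha : ∀ n, a n < d) :
    ∃ π, (∃ᶠ n in atTop, a n = π) ∧ (∀ᶠ n in atTop, a n ≤ π) := by
  classical
  have h1 : ∃ π, ∀ᶠ n in atTop, a n ≤ π := ⟨d, Eventually.of_forall fun n => (ha n).le⟩
  refine ⟨Nat.find h1, ?_, Nat.find_spec h1⟩
  intro hcon
  rcases Nat.eq_zero_or_pos (Nat.find h1) with h0 | h0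
  · obtain ⟨n, hn1, hn2⟩ := (hcon.and (Nat.find_spec h1)).exists
    rw [h0] at hn1 hn2
    exact hn1 (by omega)
  · refine Nat.find_min h1 (m := Nat.find h1 - 1) (by omega) ?_
    filter_upwards [hcon, Nat.find_spec h1] with n h2 h3
    omega

/-- Infinite paths are winning. -/
theorem acc_of_path [Finite Q] (hd : ∀ q a, pr q a < d) {stp : X → α → X → Prop}
    {E0 E : X → X → Prop}
    (hstp : ∀ x a y, stp x a y → ty y = μ (ty x) a ∧ st y = δ (st x) a)
    (hE : Good δ pr st ty stp E) (h0 : ∀ x y, E0 x y → E x y)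
    (hrefl : ∀ x, E0 x x) (htrans : ∀ x y z, E0 x y → E0 y z → E0 x z)
    (hwqo : WellQuasiOrdered fun x y => E0 y x)
    (x : ℕ → X) (c : ℕ → α)
    (hx : ∀ i, ∃ y, stp (x i) (c i) y ∧ Path stp E y [] (x (i + 1))) :
    Acc δ pr (st (x 0)) c := by
  classical
  have hp : ∀ i k, Path stp E (x i) (seg c i k) (x (i + k)) := by
    intro i k
    induction k with
    | zero => exact Path.nil _
    | succ k ih =>
      rw [seg_succ]
      obtain ⟨y, hy1, hy2⟩ := hx (i + k)
      have := (ih.snoc hy1).append hy2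
      rw [List.append_nil] at this
      exact this
  have hpre : IsPreorder X (fun x y => E0 y x) :=
    { refl := hrefl, trans := fun a b c h1 h2 => htrans _ _ _ h2 h1 }
  obtain ⟨g, hg⟩ := hwqo.exists_monotone_subseq x
  by_contra hacc
  obtain ⟨π, hπ1, hπ2⟩ := exists_limsup (fun n => pr (run δ (st (x 0)) c n) (c n)) d
    fun n => hd _ _
  have hodd : ¬ Even π := fun h => hacc ⟨π, h, hπ1, hπ2⟩
  -- pigeonhole on the states
  obtain ⟨q, hq⟩ : ∃ q, ∃ᶠ k in atTop, run δ (st (x 0)) c (g k) = q := by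
    by_contra hcon
    push Not at hcon
    have : ∀ᶠ k in (atTop : Filter ℕ), ∀ q : Q, run δ (st (x 0)) c (g k) ≠ q := by
      rw [eventually_all]
      intro q
      exact hcon q
    obtain ⟨k, hk⟩ := this.exists
    exact hk _ rfl
  rw [eventually_atTop] at hπ2
  obtain ⟨N, hN⟩ := hπ2
  rw [frequently_atTop] at hq hπ1
  obtain ⟨k1, hk1, hk1q⟩ := hq N
  have hgk : ∀ k, k ≤ g k := fun k => g.strictMono.le_apply
  obtain ⟨n1, hn1, hn1'⟩ := hπ1 (g k1)
  obtain ⟨k2, hk2, hk2q⟩ := hq (max (n1 + 1) k1)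
  have hk12 : k1 ≤ k2 := (le_max_right _ _).trans hk2
  have hn1k2 : n1 < g k2 := by
    have := hgk k2
    have := (le_max_left (n1 + 1) k1).trans hk2
    omega
  set i := g k1 with hi
  obtain ⟨l, hl⟩ : ∃ l, g k2 = i + l := ⟨g k2 - i, by omega⟩
  have hl0 : 0 < l := by omega
  -- the cycle
  have hune : seg c i l ≠ [] := by
    intro h
    have := seg_length c i l
    rw [h] at this
    simp at this
    omega
  obtain ⟨w, hw⟩ := pow_exists hune
  have hfold : (seg c i l).foldl δ q = q := by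
    have := run_seg δ (st (x 0)) c i l
    rw [← hl, hk2q, hk1q] at this
    exact this.symm
  have hprof : ((prof δ pr hd (seg c i l) q).2 : ℕ) = π + 1 := by
    apply le_antisymm
    · obtain ⟨j, hj, he⟩ := prof_seg_eq δ pr hd (st (x 0)) c i l hl0
      rw [hk1q] at he
      rw [← he]
      have := hN (i + j) (by have := hgk k1; omega)
      omega
    · obtain ⟨j, hj⟩ : ∃ j, n1 = i + j := ⟨n1 - i, by omega⟩
      have := prof_seg_le δ pr hd (st (x 0)) c i l j (by omega)
      rw [hk1q, ← hj] at this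
      omega
  have hnacc : ¬ Acc δ pr q w := by
    rw [acc_pow_cycle δ pr hd q hune hw hfold hprof]
    exact hodd
  apply hnacc
  have hcyc : Path stp E (x i) (seg c i l) (x i) := by
    refine (hp i l).eps ?_
    rw [← hl]
    exact h0 _ _ (hg k1 k2 hk12)
  have h2 := hE.cyc (x i) _ w hune hcyc hw
  have h3 := ((hp 0 i).ri hstp hE.ty_eq hE.sub).2
  rw [Nat.zero_add, ← run_eq_seg, hk1q] at h3
  exact h3 _ h2

/-- Least elements. -/
theorem exists_least {stp : X → α → X → Prop} {E0 E : X → X → Prop}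
    (h0 : ∀ x y, E0 x y → E x y)
    (hwqo : WellQuasiOrdered fun x y => E0 y x)
    (htot : ∀ x y, ty x = ty y → E x y ∨ E y x)
    (S : Set X) (hS : S.Nonempty) (hty : ∀ x ∈ S, ∀ y ∈ S, ty x = ty y) :
    ∃ m ∈ S, ∀ x ∈ S, Path stp E x [] m := by
  classical
  by_contra hcon
  push Not at hcon
  have hstep : ∀ m : S, ∃ x : S, E m x ∧ ¬ Path stp E (x : X) [] (m : X) := by
    intro m
    obtain ⟨x, hxS, hx⟩ := hcon m m.2
    refine ⟨⟨x, hxS⟩, ?_, hx⟩
    rcases htot m x (hty _ m.2 _ hxS) with h | h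
    · exact h
    · exact absurd ((Path.nil _).eps h) hx
  choose nxt hn1 hn2 using hstep
  obtain ⟨s0, hs0⟩ := hS
  let f : ℕ → S := fun n => nxt^[n] ⟨s0, hs0⟩
  have hf : ∀ n, f (n + 1) = nxt (f n) := fun n => Function.iterate_succ_apply' _ _ _
  obtain ⟨m, n, hmn, hE⟩ := hwqo (fun n => (f n : X))
  have hchain : ∀ k, Path stp E (f (m + 1) : X) [] (f (m + 1 + k) : X) := by
    intro k
    induction k with
    | zero => exact Path.nil _
    | succ k ih =>
      refine ih.eps ?_
      rw [← add_assoc, hf (m + 1 + k)]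
      exact hn1 _
  obtain ⟨k, rfl⟩ : ∃ k, n = m + 1 + k := ⟨n - (m + 1), by omega⟩
  have := (hchain k).eps (h0 _ _ hE)
  rw [hf m] at this
  exact hn2 _ this

end

end Pool.Agent.Lib_MP_369bda_lc
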