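import Mathlib

/-!
Ordinal ranks for relations without infinite paths using infinitely many special edges.
-/

namespace Pool.Agent.Lib_MP_369bda_lc

open Filter

universe v

theorem exists_rank {X : Type v} (R S : X → X → Prop) (hSR : ∀ x y, S x y → R x y)
    (hinf : ∀ f : ℕ → X, (∀ n, R (f n) (f (n + 1))) → ¬ ∃ᶠ n in atTop, S (f n) (f (n + 1))) :
    ∃ rk : X → Ordinal.{v}, (∀ x y, R x y → rk y ≤ rk x) ∧ (∀ x y, S x y → rk y < rk x) := by
  classical
  let A : X → X → Prop := fun t s => ∃ s', Relation.ReflTransGen R s s' ∧ S s' t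
  have hwf : WellFounded A := by
    by_contra hnwf
    have hB : ∃ s, ¬ _root_.Acc A s := by
      by_contra h
      push Not at h
      exact hnwf ⟨h⟩
    have hBstep : ∀ s, ¬ _root_.Acc A s → ∃ t, A t s ∧ ¬ _root_.Acc A t := by
      intro s hs
      by_contra h
      push Not at h
      exact hs ⟨s, fun t ht => h t ht⟩
    let D : ℕ → X → Prop := fun n => Nat.rec (fun s => ∃ t, S s t ∧ ¬ _root_.Acc A t)
      (fun _ D s => ∃ t, R s t ∧ D t) n
    have hD0 : ∀ s, D 0 s ↔ ∃ t, S s t ∧ ¬ _root_.Acc A t := fun _ => Iff.rfl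
    have hDs : ∀ n s, D (n + 1) s ↔ ∃ t, R s t ∧ D n t := fun _ _ => Iff.rfl
    have hBD : ∀ s, ¬ _root_.Acc A s → ∃ n, D n s := by
      intro s hs
      obtain ⟨t, ⟨s', hss', hs't⟩, ht⟩ := hBstep s hs
      clear hs
      induction hss' using Relation.ReflTransGen.head_induction_on with
      | refl => exact ⟨0, t, hs't, ht⟩
      | head hab _ ih =>
        obtain ⟨n, hn⟩ := ih
        exact ⟨n + 1, _, hab, hn⟩
    let dist : {s : X // ∃ n, D n s} → ℕ := fun s => @Nat.find (fun n => D n s.1)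
      (Classical.decPred _) s.2
    have hnext : ∀ s : {s : X // ∃ n, D n s}, ∃ t : {s : X // ∃ n, D n s}, R s.1 t.1 ∧
        (S s.1 t.1 ∨ dist t < dist s) := by
      rintro ⟨s, hs⟩
      have hspec := @Nat.find_spec (fun n => D n s) (Classical.decPred _) hs
      rcases hn : @Nat.find (fun n => D n s) (Classical.decPred _) hs with _ | n
      · rw [hn] at hspec
        obtain ⟨t, hst, ht⟩ := (hD0 s).1 hspec
        exact ⟨⟨t, hBD t ht⟩, hSR _ _ hst, Or.inl hst⟩
      · rw [hn] at hspec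
        obtain ⟨t, hst, ht⟩ := (hDs n s).1 hspec
        refine ⟨⟨t, n, ht⟩, hst, Or.inr ?_⟩
        have h1 : dist ⟨t, n, ht⟩ ≤ n :=
          @Nat.find_min' (fun n => D n t) (Classical.decPred _) ⟨n, ht⟩ n ht
        have h2 : dist ⟨s, hs⟩ = n + 1 := hn
        omega
    choose nxt hn1 hn2 using hnext
    obtain ⟨s0, hs0⟩ := hB
    let f : ℕ → {s : X // ∃ n, D n s} := fun n => nxt^[n] ⟨s0, hBD s0 hs0⟩
    have hf : ∀ n, f (n + 1) = nxt (f n) := fun n => Function.iterate_succ_apply' _ _ _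
    refine hinf (fun n => (f n : X)) (fun n => by rw [hf]; exact hn1 _) ?_
    rw [frequently_atTop]
    intro N
    have key : ∀ m N, dist (f N) = m → ∃ b ≥ N, S (f b : X) (f (b + 1) : X) := by
      intro m
      induction m using Nat.strong_induction_on with
      | _ m ih =>
        intro N hN
        rcases hn2 (f N) with h | h
        · exact ⟨N, le_refl _, by rw [hf]; exact h⟩
        · obtain ⟨b, hb, hb'⟩ := ih (dist (f (N + 1))) (by rw [hf]; omega) (N + 1) rfl
          exact ⟨b, by omega, hb'⟩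
    exact key _ N rfl
  have : IsWellFounded X A := ⟨hwf⟩
  refine ⟨IsWellFounded.rank A, ?_, ?_⟩
  · intro x y hxy
    rw [IsWellFounded.rank_eq A y]
    refine Ordinal.iSup_le ?_
    rintro ⟨b, s', hs', hb⟩
    rw [Order.succ_le_iff]
    exact IsWellFounded.rank_lt_of_rel ⟨s', Relation.ReflTransGen.head hxy hs', hb⟩
  · intro x y hxy
    exact IsWellFounded.rank_lt_of_rel ⟨x, Relation.ReflTransGen.refl, hxy⟩

end Pool.Agent.Lib_MP_369bda_lc
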